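import Mathlib

/-!
# Least-squares partial matchings under translation: targets in a generalised progression

`Sopt A B` is the set `S_opt(A, B)` of the problem, for points of `ℝ^d`.

Distinct elements of `S_opt(A, B)` have distinct image sums `∑ i, b_{π(i)}`, so `|S_opt(A, B)|` is at
most the number of distinct sums of `m`-element subfamilies of `B`.  If `B` lies in a generalised
arithmetic progression `{p + x_1 v_1 + ... + x_r v_r : 0 ≤ x_k < N_k}`, that number is at most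
`∏ k, (m (N_k - 1) + 1) ≤ m ^ r * ∏ k, N_k`.
-/

set_option autoImplicit false

namespace Pool.Agent.Results.MP_bd0985_co.ProgressionTargets

open Finset

/-- `S_opt(A, B)`: the injective maps `π` which are, for some translation vector `t`, the strictly
unique minimiser of `∑ i, ‖a_i - (b_{π(i)} + t)‖ ^ 2`. -/
def Sopt {d m n : ℕ} (A : Fin m → EuclideanSpace ℝ (Fin d))
    (B : Fin n → EuclideanSpace ℝ (Fin d)) : Set (Fin m ↪ Fin n) :=
  {π | ∃ t : EuclideanSpace ℝ (Fin d), ∀ σ : Fin m ↪ Fin n, σ ≠ π →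
    ∑ i, ‖A i - (B (π i) + t)‖ ^ 2 < ∑ i, ‖A i - (B (σ i) + t)‖ ^ 2}

/-- The distinct sums of the `m`-element subfamilies of `B`. -/
def subsetSums {d n : ℕ} (m : ℕ) (B : Fin n → EuclideanSpace ℝ (Fin d)) :
    Set (EuclideanSpace ℝ (Fin d)) :=
  {s | ∃ J : Finset (Fin n), J.card = m ∧ s = ∑ j ∈ J, B j}

/-- `B` lies in the generalised arithmetic progression with base point `p`, steps `v` and side
lengths `N`. -/
def InProgression {d n r : ℕ} (B : Fin n → EuclideanSpace ℝ (Fin d))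
    (p : EuclideanSpace ℝ (Fin d)) (v : Fin r → EuclideanSpace ℝ (Fin d)) (N : Fin r → ℕ) : Prop :=
  ∀ j, ∃ x : Fin r → ℕ, (∀ k, x k < N k) ∧ B j = p + ∑ k, (x k : ℝ) • v k

lemma cost_expand {d m n : ℕ} (A : Fin m → EuclideanSpace ℝ (Fin d))
    (B : Fin n → EuclideanSpace ℝ (Fin d)) (π : Fin m ↪ Fin n) (t : EuclideanSpace ℝ (Fin d)) :
    ∑ i, ‖A i - (B (π i) + t)‖ ^ 2 =
      ∑ i, ‖A i - B (π i)‖ ^ 2 - 2 * inner ℝ (∑ i, A i - ∑ i, B (π i)) t + m * ‖t‖ ^ 2 := by
  have h : ∀ i, ‖A i - (B (π i) + t)‖ ^ 2 =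
      ‖A i - B (π i)‖ ^ 2 - 2 * inner ℝ (A i - B (π i)) t + ‖t‖ ^ 2 := by
    intro i
    rw [← sub_sub, norm_sub_sq_real]
  rw [Finset.sum_congr rfl (fun i _ => h i), Finset.sum_add_distrib, Finset.sum_sub_distrib,
    ← Finset.mul_sum, ← sum_inner, Finset.sum_sub_distrib]
  simp

lemma eq_of_sum_eq {d m n : ℕ} (A : Fin m → EuclideanSpace ℝ (Fin d))
    (B : Fin n → EuclideanSpace ℝ (Fin d)) {π σ : Fin m ↪ Fin n}
    (hπ : π ∈ Sopt A B) (hσ : σ ∈ Sopt A B) (h : ∑ i, B (π i) = ∑ i, B (σ i)) : π = σ := by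
  by_contra hne
  obtain ⟨t, ht⟩ := hπ
  obtain ⟨u, hu⟩ := hσ
  have h1 := ht σ (fun e => hne e.symm)
  have h2 := hu π hne
  rw [cost_expand A B π, cost_expand A B σ, h] at h1
  rw [cost_expand A B π, cost_expand A B σ, h] at h2
  linarith

lemma sopt_le_subsetSums {d m n : ℕ} (A : Fin m → EuclideanSpace ℝ (Fin d))
    (B : Fin n → EuclideanSpace ℝ (Fin d)) :
    (Sopt A B).ncard ≤ (subsetSums m B).ncard := by
  have hfin : (subsetSums m B).Finite := by
    have : subsetSums m B ⊆ Set.range (fun J : Finset (Fin n) => ∑ j ∈ J, B j) := by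
      rintro s ⟨J, -, rfl⟩
      exact ⟨J, rfl⟩
    exact (Set.finite_range _).subset this
  refine Set.ncard_le_ncard_of_injOn (fun π : Fin m ↪ Fin n => ∑ i, B (π i)) ?_ ?_ hfin
  · intro π _
    refine ⟨univ.map π, by simp, ?_⟩
    simp
  · intro π hπ σ hσ h
    exact eq_of_sum_eq A B hπ hσ h

lemma subsetSums_le_prod {d m n r : ℕ}
    (B : Fin n → EuclideanSpace ℝ (Fin d)) (p : EuclideanSpace ℝ (Fin d))
    (v : Fin r → EuclideanSpace ℝ (Fin d)) (N : Fin r → ℕ) (hB : InProgression B p v N) :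
    (subsetSums m B).ncard ≤ ∏ k, (m * (N k - 1) + 1) := by
  choose x hx hBx using hB
  let g : (∀ k : Fin r, Fin (m * (N k - 1) + 1)) → EuclideanSpace ℝ (Fin d) :=
    fun y => (m : ℝ) • p + ∑ k, (((y k : ℕ) : ℝ)) • v k
  have hsub : subsetSums m B ⊆ g '' Set.univ := by
    rintro s ⟨J, hJ, rfl⟩
    have hbound : ∀ k : Fin r, ∑ j ∈ J, x j k < m * (N k - 1) + 1 := by
      intro k
      have : ∑ j ∈ J, x j k ≤ ∑ _j ∈ J, (N k - 1) :=
        Finset.sum_le_sum (fun j _ => by have := hx j k; omega)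
      simp [hJ] at this
      omega
    refine ⟨fun k => ⟨∑ j ∈ J, x j k, hbound k⟩, Set.mem_univ _, ?_⟩
    simp only [g]
    rw [Finset.sum_congr rfl (fun j _ => hBx j), Finset.sum_add_distrib, Finset.sum_comm]
    congr 1
    · simp [← Nat.cast_smul_eq_nsmul ℝ, hJ]
    · refine Finset.sum_congr rfl (fun k _ => ?_)
      rw [← Finset.sum_smul]
      push_cast
      rfl
  have h1 : (subsetSums m B).ncard ≤ (g '' Set.univ).ncard :=
    Set.ncard_le_ncard hsub (Set.finite_univ.image g)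
  have h2 : (g '' Set.univ).ncard ≤
      (Set.univ : Set (∀ k : Fin r, Fin (m * (N k - 1) + 1))).ncard :=
    Set.ncard_image_le Set.finite_univ
  have h3 : (Set.univ : Set (∀ k : Fin r, Fin (m * (N k - 1) + 1))).ncard =
      ∏ k, (m * (N k - 1) + 1) := by
    rw [Set.ncard_univ, Nat.card_eq_fintype_card, Fintype.card_pi]
    simp
  omega

lemma prod_le {m r : ℕ} (hm : 1 ≤ m) (N : Fin r → ℕ) (hN : ∀ k, 1 ≤ N k) :
    ∏ k, (m * (N k - 1) + 1) ≤ m ^ r * ∏ k, N k := by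
  have : ∏ k, (m * (N k - 1) + 1) ≤ ∏ k, (m * N k) := by
    refine Finset.prod_le_prod' (fun k _ => ?_)
    obtain ⟨a, ha⟩ : ∃ a, N k = a + 1 := ⟨N k - 1, by have := hN k; omega⟩
    rw [ha]
    simp only [Nat.add_sub_cancel]
    nlinarith
  simpa [Finset.prod_mul_distrib] using this

/-- **Partial result on Rote's question.**  Let `1 ≤ m ≤ n`, let `A` be any list of `m` points of
`ℝ^d` and `B` a list of `n` points of `ℝ^d` lying in a generalised arithmetic progression of rank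
`r` with side lengths `N_1, ..., N_r`.  Then
`|S_opt(A, B)| ≤ #{distinct sums of m members of B} ≤ ∏ k, (m (N_k - 1) + 1) ≤ m ^ r * ∏ k, N_k`. -/
theorem result (d m n r : ℕ) (hm : 1 ≤ m) (hmn : m ≤ n)
    (A : Fin m → EuclideanSpace ℝ (Fin d)) (B : Fin n → EuclideanSpace ℝ (Fin d))
    (p : EuclideanSpace ℝ (Fin d)) (v : Fin r → EuclideanSpace ℝ (Fin d)) (N : Fin r → ℕ)
    (hB : InProgression B p v N) :
    (Sopt A B).ncard ≤ (subsetSums m B).ncard ∧
    (subsetSums m B).ncard ≤ ∏ k, (m * (N k - 1) + 1) ∧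
    ∏ k, (m * (N k - 1) + 1) ≤ m ^ r * ∏ k, N k := by
  refine ⟨sopt_le_subsetSums A B, subsetSums_le_prod B p v N hB, prod_le hm N (fun k => ?_)⟩
  obtain ⟨x, hx, -⟩ := hB ⟨0, by omega⟩
  have := hx k
  omega

end Pool.Agent.Results.MP_bd0985_co.ProgressionTargets
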